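import Pool.Agent.P.MP_92f5e0_lc.Model

open Pool.Agent.Lib.Helper87 Coded Pool.Agent.P.MP_92f5e0_lc

/-- A transitive model of ZFC in which `𝔟 = ℵ₁ < 𝔰 = 𝔞 = 𝔠 = ℵ₂` and a tight mad family exists. -/
theorem Pool.Agent.Results.MP_92f5e0_lc.TightModel.result :
    ∃ M : Set ZFSet.{0}, TransModelZFC M ∧ ∃ κ ∈ M, ∃ μ ∈ M,
      κ.IsOrdinal ∧ μ.IsOrdinal ∧ (∀ α ∈ κ, CardLE M α ZFSet.omega) ∧ (∀ α ∈ μ, CardLE M α κ) ∧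
      CardLE M (code {x : Set ℕ | code x ∈ M}) μ ∧
      (∃ H : Set (ℕ → ℕ), code H ∈ M ∧ CardLE M (code H) κ ∧ Unbounded M H) ∧
      (∀ S : Set (Set ℕ), code S ∈ M → CardLE M (code S) κ → ¬ Splitting M S ∧ ¬ Mad M S) ∧
      ∃ A : Set (Set ℕ), code A ∈ M ∧ Mad M A ∧ Tight M A :=
  main
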